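import Pool.Agent.H24GH.S
import Pool.Agent.H24GH.Sharp

/-!
# The vanishing of `μ` for totally real fields and quotients of permutation modules

Let `p` be an odd prime. `QB` is the field of the algebraic numbers. For a number field `E` the module
`X_Σ` of the problem is finitely generated over `ℤ_p` if and only if `X_Σ / p` is finite, that is, if
there are only finitely many continuous homomorphisms from the absolute Galois group of `E^cyc` to
`ℤ / p` which are unramified outside `Σ`. `MuZero p E` says this for all `Σ` which consist of the places
over a finite set of primes that contains `p` and of the infinite places. For a subgroup `D` of `Aut F`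
let `F^D` be the field of the elements of `F` fixed by `D` (`fx F D`).

1. Let `H` be any subgroup of `Aut F`. If `μ_p(F^H) ≠ 0` then there is a nonzero quotient `V` of the
   permutation module `𝔽_p[Aut F / H]` such that `μ_p(F^D) ≠ 0` for **all** the subgroups `D` of `Aut F`
   (of any order) which fix a nonzero vector of `V`. The converse is clear (`D = H`).
2. Let `H` and the `D i` be any subgroups of `Aut F` such that every nonzero quotient of `𝔽_p[Aut F / H]`
   has for some `i` a nonzero vector fixed by `D i` (`Dominated`). If `μ_p(F^{D i}) = 0` for all `i` then
   `μ_p(F^H) = 0`. More precisely, let `Z` be any Galois extension of `ℚ`, finite or infinite (for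
   example a layer of the cyclotomic `ℤ_p`-extension of `ℚ`), let `F` be unramified outside `S`,
   `g = |Aut F|`, and let `h(K)` be the number of the continuous homomorphisms from the Galois group of
   `K` to `ℤ / p` which are unramified outside `S`. Then
   `h(F^H Z) ≤ p ^ g (∏ i, p ^ (g ^ 2 + 1) h(F^{D i} Z)) ^ (g ^ 2)` (`RankInequalityFor`).
3. The criterion in 2 is the best possible one which uses only the structure of a module: for a finite
   group `Γ` and its subgroups `H`, `D i` every nonzero quotient of `𝔽_p[Γ/H]` has for some `i` a nonzero
   vector fixed by `D i` if and only if for every `𝔽_p[Γ]`-module `N` (finite or infinite) the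
   finiteness of all `N^{D i}` implies the finiteness of `N^H`.
4. Let `C` be a set of totally real number fields which contains the subfields of its elements (for
   example all totally real fields). A field `M` is *tight* for `C` if for every `L ∈ C` and every
   `H ≤ Aut L` with `M ≤ L^H` some nonzero quotient of `𝔽_p[Aut L / H]` has no nonzero vector fixed by a
   subgroup `D` with `[L^D : ℚ] < [M : ℚ]`. If `μ_p = 0` for the tight fields in `C` of degree at most `n`
   then `μ_p = 0` for all the fields in `C` of degree at most `n`.
5. Let `M ∈ C` be tight. Then `p` does not divide `|Aut M|`, and `Aut M` acts on a finite `𝔽_p`-vector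
   space `V ≠ 0` such that no `σ ≠ 1` has a nonzero fixed vector (so `Aut M` is a Frobenius complement: its
   subgroups of order `q r`, `q` and `r` primes, are cyclic). For every `L ∈ C` which contains `M` the
   `p`-subgroups `P` of `Aut L` satisfy `|P| [M : ℚ] ≤ [L : ℚ]`.

The starting files `DominatedFixedFields` and `TightFields` of this problem treat subgroups of order prime
to `p`, where the fixed vectors are an exact functor. A `p`-group fixes a nonzero vector of every `V`, so
the theorem of Iwasawa on `p`-extensions is the case of one `p`-group `D` in 2. If the orders of `H` and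
the `D i` are prime to `p` and every irreducible module with nonzero vectors fixed by `H` has for some `i` a
nonzero vector fixed by `D i`, then `Dominated` holds: a nonzero quotient `V` of the permutation module has an
irreducible quotient with a nonzero vector fixed by `H`, and vectors fixed by `D i` can be lifted to `V`.

Proof. Let `M = Hom(G_{F Z}, ℤ / p)`, with the condition on the ramification, and let `Γ = Aut F`. The
homomorphisms in `M` which are invariant under the Galois group of `F^D Z` extend to it up to a cocycle of
a subgroup of `Γ`, and the extension is unramified outside `S` because `F` is. Let `T` be the span of all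
the invariants for the conjugates of the `D i`, and let `f` be a linear projection of `M` to `T`. Let
`z ≠ 0` be invariant under the Galois group of `F^H Z`, and suppose that `f (σ z) = 0` for all `σ`. Then the
module `W` generated by `z` has no nonzero vectors in `T`. In the representation of `Γ` induced from `W` (a
module for the image of the stabiliser of `F` in the Galois group of `QB` over `Z`) there is a nonzero vector
fixed by `H`, with the value `z` at `1`. The submodule which it generates has a nonzero vector fixed by some
`D i`, and a value of it is a vector of `W` in `T`. So `z ↦ (f (σ z))_σ` is injective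
(`Pool/Agent/H24GH/Alg.lean`).
-/

set_option autoImplicit false

open Pool.Agent.H24MU.St Pool.Agent.H24GH

namespace Pool.Agent.Results.MP_4e64b4_nt.PermutationModules

theorem result (p : ℕ) (hp : p.Prime) (_ : p ≠ 2) :
    (∀ (F : Fds) [FiniteDimensional ℚ F] (H : Subgroup (Aut F)),
      (¬ MuZero p (fx F H) ↔ S.HasQuotientWitness p F H) ∧
      ∀ (ι : Type) (D : ι → Subgroup (Aut F)), Dominated p H D →
        ((∀ i, MuZero p (fx F (D i))) → MuZero p (fx F H)) ∧
        ∀ [Fintype ι] (Z : Fds) (T : Finset ℕ), Normal ℚ Z →
          UnramifiedOutside T F → S.RankInequalityFor p T F Z H D) ∧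
    (∀ (Γ ι : Type) [Group Γ] [Finite Γ] (H : Subgroup Γ) (D : ι → Subgroup Γ),
      Dominated p H D ↔ ∀ (N : Type) [CommGroup N] (b : Γ →* MulAut N), (∀ v : N, v ^ p = 1) →
        (∀ i, {v : N | ∀ d ∈ D i, b d v = v}.Finite) → {v : N | ∀ h ∈ H, b h v = v}.Finite) ∧
    (∀ C : Set Fds, S.RealClosed C →
      (∀ n : ℕ, (∀ M ∈ C, S.TightFor p C M → deg M ≤ n → MuZero p M) →
        ∀ F ∈ C, deg F ≤ n → MuZero p F) ∧
      ∀ M ∈ C, S.TightFor p C M → S.Restrictions p C M) :=
  ⟨fun F _ H => ⟨Pool.Agent.H24GH.S.mu_witness hp F H, fun _ D hdom =>
      ⟨Pool.Agent.H24GH.S.mu_dom hp F H D hdom, fun Z T hZ hT =>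
        Pool.Agent.H24GH.S.bounded hp F Z (Pool.Agent.H24MU.normal_fix Z hZ) H D hdom T hT⟩⟩,
    fun _ _ _ _ H D => Pool.Agent.H24GH.sharp hp H D,
    fun C hC => ⟨Pool.Agent.H24GH.S.red hp C hC, Pool.Agent.H24GH.S.restricted hp C hC⟩⟩

end Pool.Agent.Results.MP_4e64b4_nt.PermutationModules
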